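import Mathlib
import Pool.Agent.KS6_57.CU.Main

/-!
# MP_750254_mp: all pairs of component numbers

`M` is the `p × p` matrix with all entries `1` (the rooted `p`-ary tree whose vertices carry `p`
labels), `nu = 1`, `t = 1` on the edges.  For all `1 ≤ b ≤ a ≤ p` there is a potential such that
`Sigma_1` has exactly `a` connected components and the spectrum has exactly `b` connected
components.
-/

open scoped ENNReal ComplexConjugate

noncomputable section

namespace Pool.Agent.Results.MP_750254_mp.AllComponentNumbers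

open Pool.Agent.KS6_57.CU

/-- The conditions on the substitution matrix `M`. -/
def IsSubstitution {A : Type} [Fintype A] [DecidableEq A] (M : Matrix A A ℕ) : Prop :=
  (∀ j, 2 ≤ ∑ k, M j k) ∧ (∀ j, 1 ≤ M j j) ∧ ∃ n : ℕ, ∀ j k, 0 < (M ^ n) j k

/-- `(G, o, a)` is the labelled rooted tree `T(M, j)`: `G` is a tree with root `o`, `a` is the
labelling, the root has label `j`, and every vertex `x` has exactly `M (a x) l` forward neighbours
(neighbours which are farther from the root) of label `l`. -/
def IsSubstitutionTree {A V : Type} (M : Matrix A A ℕ) (j : A) (G : SimpleGraph V) (o : V)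
    (a : V → A) : Prop :=
  G.IsTree ∧ a o = j ∧
    ∀ x l, {y | G.Adj x y ∧ G.dist o y = G.dist o x + 1 ∧ a y = l}.encard = M (a x) l

/-- The Hilbert space `l2(V)` of complex functions on `V` (Mathlib's `lp` with exponent `2`). -/
def L2 (V : Type) : Type := lp (fun _ : V => ℂ) 2

/-- the norm of Mathlib's `lp` -/
instance instNorm (V : Type) : NormedAddCommGroup (L2 V) :=
  @lp.normedAddCommGroup V (fun _ => ℂ) 2 _ _

/-- the vector space structure of Mathlib's `lp` -/
instance instSpace (V : Type) : NormedSpace ℂ (L2 V) :=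
  (lp.instNormedSpace : NormedSpace ℂ (lp (fun _ : V => ℂ) 2))

/-- The value of `φ ∈ l2(V)` at the vertex `x`. -/
def val {V : Type} (φ : L2 V) (x : V) : ℂ := φ.1 x

/-- The bounded operators on `l2(V)`. -/
abbrev Op (V : Type) : Type := L2 V →L[ℂ] L2 V

/-- The spectrum of a bounded operator on `l2(V)`. -/
def spec {V : Type} (T : Op V) : Set ℂ := spectrum ℂ T

/-- The number of connected components of `S` (as a subspace). -/
def numComponents {X : Type} [TopologicalSpace X] (S : Set X) : ℕ :=
  Nat.card (ConnectedComponents S)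

/-- `T` is a label invariant operator with weight `nu = 1` (which is allowed) and with the numbers
`mm j k` and `m j`: it is the bounded operator on `l2(V)` with
`(T φ) x = ∑_{y ~ x} t x y * φ y + w x * φ x`, where `t x y ≠ 0` iff `x ~ y`, `t` is Hermitian,
`|t x y|^2 * M (a x) (a y) = mm (a x) (a y)` for adjacent `x, y`, and `w x = m (a x)`. -/
def IsLabelInvariant {A V : Type} (M : Matrix A A ℕ) (G : SimpleGraph V) (a : V → A)
    (mm : A → A → ℝ) (m : A → ℝ) (T : Op V) : Prop :=
  ∃ t : V → V → ℂ, (∀ x y, t x y ≠ 0 ↔ G.Adj x y) ∧ (∀ x y, t x y = conj (t y x)) ∧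
    (∀ x y, G.Adj x y → ‖t x y‖ ^ 2 * M (a x) (a y) = mm (a x) (a y)) ∧
    ∀ (φ : L2 V) (x : V),
      val (T φ) x = (∑ᶠ (y : V) (_ : G.Adj x y), t x y * val φ y) + m (a x) * val φ x

/-- `Sigma_1`: the real numbers `E` for which the system
`ξ_j (E - m_j + ∑_k m_{jk} ξ_k) + 1 = 0` has a solution with all `ξ_j` in the upper half plane. -/
def Sigma1 {A : Type} [Fintype A] (mm : A → A → ℝ) (m : A → ℝ) : Set ℝ :=
  {E | ∃ ξ : A → ℂ, (∀ j, 0 < (ξ j).im) ∧ ∀ j, ξ j * (E - m j + ∑ k, mm j k * ξ k) + 1 = 0}

/-- the matrix with all entries `1` -/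
def M1 (p : ℕ) : Matrix (Fin p) (Fin p) ℕ := fun _ _ => 1

lemma isSubstitution_M1 {p : ℕ} (hp : 2 ≤ p) : IsSubstitution (M1 p) := by
  refine ⟨fun j => by simpa [M1] using hp, fun j => by simp [M1], 1, fun j k => by simp [M1]⟩

lemma isTree_M1 {p : ℕ} (j : Fin p) :
    IsSubstitutionTree (M1 p) j (wt (Fin p)) [] (wl id j) := by
  refine ⟨wt_isTree, rfl, ?_⟩
  intro x l
  rw [children]
  have : (fun k => k :: x) '' {k : Fin p | id k = l} = {l :: x} := by
    ext y
    simp
  rw [this, Set.encard_singleton]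
  simp [M1]

/-- the operator on `L2 (List (Fin p))` -/
def TL {p : ℕ} (w : Fin p → ℝ) (j : Fin p) : Op (List (Fin p)) :=
  Tp ((w j : ℝ) : ℂ) (fun k => ((w k : ℝ) : ℂ))

lemma isLabelInvariant {p : ℕ} (w : Fin p → ℝ) (j : Fin p) :
    IsLabelInvariant (M1 p) (wt (Fin p)) (wl id j) (fun _ _ => 1) w (TL w j) := by
  refine ⟨t0, ?_, ?_, ?_, ?_⟩
  · intro x y
    by_cases h : (wt (Fin p)).Adj x y
    · simp [t0_adj h, h]
    · simp [t0_not h, h]
  · intro x y
    by_cases h : (wt (Fin p)).Adj x y
    · simp [t0_adj h, t0_adj h.symm]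
    · simp [t0_not h, t0_not (fun h2 => h (SimpleGraph.Adj.symm h2))]
  · intro x y h
    simp [t0_adj h, M1]
  · intro φ' x
    let φ : H (Fin p) := φ'
    have hval : ∀ y, val φ' y = φ y := fun _ => rfl
    have hval2 : ∀ y, val (TL w j φ') y = Tp ((w j : ℝ) : ℂ) (fun k => ((w k : ℝ) : ℂ)) φ y :=
      fun _ => rfl
    simp only [hval, hval2]
    match x with
    | [] =>
      rw [Tp_nil, sum_nil]
      simp only [wl]
      ring
    | c :: x =>
      rw [Tp_cons, sum_cons]
      simp only [wl, id]
      ring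

end Pool.Agent.Results.MP_750254_mp.AllComponentNumbers

open Pool.Agent.Results.MP_750254_mp.AllComponentNumbers Pool.Agent.KS6_57.CU in
/-- **MP_750254_mp Q1 (yes, with all pairs of numbers).**  For all `p ≥ 2` and `1 ≤ b ≤ a ≤ p`,
on the tree with `p` labels and with all entries of `M` equal to `1`, with `nu = 1` and `t = 1` on
the edges, there is a potential `m` such that `Sigma_1` has exactly `a` connected components and,
for every root label `j`, the label invariant operator has a spectrum with exactly `b` connected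
components. -/
theorem Pool.Agent.Results.MP_750254_mp.AllComponentNumbers.result :
    ∀ p a b : ℕ, 2 ≤ p → 1 ≤ b → b ≤ a → a ≤ p →
      ∃ (M : Matrix (Fin p) (Fin p) ℕ) (mm : Fin p → Fin p → ℝ) (m : Fin p → ℝ),
        IsSubstitution M ∧ (∀ j k, M j k = 1) ∧ (∀ j k, mm j k = 1) ∧
        numComponents (Sigma1 mm m) = a ∧
        ∀ j : Fin p, ∃ (V : Type) (G : SimpleGraph V) (o : V) (l : V → Fin p) (T : Op V),
          IsSubstitutionTree M j G o l ∧ IsLabelInvariant M G l mm m T ∧
          numComponents (spec T) = b := by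
  intro p a b hp hb hba ha
  obtain ⟨N, rfl⟩ : ∃ N, p = N + 1 := ⟨p - 1, by omega⟩
  obtain ⟨w, hw, h1, h2⟩ := exists_potential N a b hb hba ha
  refine ⟨M1 (N + 1), fun _ _ => 1, w, isSubstitution_M1 hp, fun _ _ => rfl, fun _ _ => rfl, ?_, ?_⟩
  · have hS : Sigma1 (fun _ _ => 1) w = SS w (Zle w) := by
      ext E
      exact sigma_iff hw.injective E
    rw [hS]
    exact h1
  · intro j
    refine ⟨List (Fin (N + 1)), wt _, [], wl id j, TL w j, isTree_M1 j, isLabelInvariant w j, ?_⟩
    have hsp : spec (TL w j) = (fun x : ℝ => (x : ℂ)) '' SS w (Zlt w) := spec_eq w hw.injective j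
    rw [hsp]
    unfold numComponents
    rw [card_image]
    exact h2
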